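import Pool.Agent.Q230.CT.Compl2
import Pool.Agent.Q230.CT.PT

/-!
# Convex position by translation and scaling is NP-hard

`CTS` is the decision problem of the problem file: for finitely many finite sets of rational points
in the plane, can each set be scaled by a positive factor and translated (each set on its own) such
that the union of the sets is in convex position, that is, each point is on the boundary of the
convex hull of the union?

**Proof.** The reduction is from 3SAT. One set, the frame, contains three points of each edge of a
centrally symmetric convex polygon whose upper edges are on tangents of a parabola. For each literal
there is one further set; it contains three points of an upper edge `e` and three points of the
parallel lower edge. Since the middle one of three points of a line is extreme only in the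
directions orthogonal to the line, all points have to be inside of the polygon formed by the lines
of the edges of the frame, and the set of the literal has to touch both lines number `e`: so it is not
scaled, and it is translated by some amount `q` in the direction of `e`. Two further points of the
set bound this amount by `0 ≤ q ≤ 20`. All further points are near corners of the polygon. In the
corner of a variable, on the upper side, the points of the two sets of the literals `v`, `¬v` are such
that not both amounts are more than `1`, on the lower side such that not both are less than `19`. So one
of the two is at most `1` and the other at least `19`. In the corner of a clause there are three points,
one for each of its literals, such that the second of them cannot be extreme if all literals are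
false (amount at most `1`), and all three are extreme if one literal is true (amount `20`).
-/

set_option autoImplicit false

namespace Pool.Agent.Results.MP_1225bd_lc.ScalingHard

open Pool.Agent.NPC Pool.Agent.Q230.CT

/-- The problem CTS is NP-hard under polynomial-time many-one reductions. -/
theorem result : NPHardP CTS :=
  ((hardPr_SAT3b.trans (f := inst) (Pr' := fun _ => True) (poly_inst Poly.id)
    (fun _ _ => trivial) fun _ h => ⟨complete h.2.1, sound h.2.1⟩).toHardI).toNPHardP

end Pool.Agent.Results.MP_1225bd_lc.ScalingHard
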